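import Pool.Agent.Y554.NE.Stm
import Pool.Agent.H389R2.NS.Pair2

/-!
Project NE, part CH1: chains of annuli, one layer.
-/

set_option autoImplicit false

namespace Pool.Agent.Y948.NE

open H974 H12S H985T H389NS Finset Pool.Agent.Y554.DP Pool.Agent.Y554.SN Pool.Agent.Y554.NE

/-- independent layers: the square of the probability -/
theorem P2_zero_sq {E : Type*} [DecidableEq E] (S : Finset E) (A : Finset E → Prop) :
    P2 (fun _ => (0:ℝ)) S A A = (Pr (fun _ => (1 / 2 : ℝ)) S A) ^ 2 := by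
  unfold P2
  rw [A7.E2_zero (fun _ _ => rfl)]
  have h3 : (fun F => Ex hp S (fun F' => ind (A F) * ind (A F'))) =
      fun F => ind (A F) * Pr (fun _ => (1 / 2 : ℝ)) S A := funext fun F => Ex_mul_left _ _ _ _
  rw [h3, Ex_mul_right, sq]
  rfl

theorem core {E : Type*} [DecidableEq E] (S : Finset E) (A : Finset E → Prop) {C q : ℝ}
    (hC : 0 < C) (hq : 0 ≤ q) (h : P2 (fun _ => (0:ℝ)) S A A ≤ C * q) :
    Pr (fun _ => (1 / 2 : ℝ)) S A ≤ max 1 (C ^ (1 / 2 : ℝ)) * q ^ (1 / 2 : ℝ) := by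
  have hP : 0 ≤ Pr (fun _ => (1 / 2 : ℝ)) S A :=
    Ex_nonneg (fun _ => ⟨by norm_num, by norm_num⟩) fun F _ => ind_nonneg _
  rw [P2_zero_sq] at h
  calc Pr (fun _ => (1 / 2 : ℝ)) S A = ((Pr (fun _ => (1 / 2 : ℝ)) S A) ^ 2) ^ (1 / 2 : ℝ) := by
        rw [← Real.sqrt_eq_rpow, Real.sqrt_sq hP]
    _ ≤ (C * q) ^ (1 / 2 : ℝ) := Real.rpow_le_rpow (sq_nonneg _) h (by norm_num)
    _ = C ^ (1 / 2 : ℝ) * q ^ (1 / 2 : ℝ) := Real.mul_rpow hC.le hq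
    _ ≤ max 1 (C ^ (1 / 2 : ℝ)) * q ^ (1 / 2 : ℝ) :=
        mul_le_mul_of_nonneg_right (le_max_right _ _) (Real.rpow_nonneg hq _)

theorem ch1 (h : S_CHAIN) : S_CH1 := by
  obtain ⟨C, K, hC, hK, h⟩ := h
  refine ⟨max 1 (C ^ (1 / 2 : ℝ)), K, le_max_left _ _, hK, fun n r D c hr hrD hD hc1 hc2 => ?_⟩
  obtain ⟨Ch, a1, a2, a3⟩ := h n r D c hr hrD hD hc1 hc2
  refine ⟨Ch, a1, a2, ?_⟩
  have h1 := a3 0 le_rfl zero_lt_one (by
    rw [sub_zero, one_mul]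
    exact Real.one_le_rpow (by exact_mod_cast hr) (by norm_num))
  have hqc : 0 ≤ qc n c r D := by
    unfold qc
    positivity
  exact core (boxE n) Ch hC hqc h1

end Pool.Agent.Y948.NE
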